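import Pool.Agent.Helper98.GY.Stmts
import Pool.Agent.Helper98.TW.Basic

/-!
Row MST of the sheet GY (MP_7a8f48_an): the models of the towers are totally ergodic.
-/

open MeasureTheory Filter Topology

namespace Pool.Agent.Helper46.GY

open Pool.Agent.Helper16.AZ (T mm)
open Pool.Agent.Helper98.TW (SA AM UF BF Sys IA Inc TI Tow MR NE SS ST_INV)
open Pool.Agent.Helper98.GY (Mdl Ism ST_MST)

variable {Y : Type} [MeasurableSpace Y] {ν : Measure Y} {S S' : Y → Y} {N : ℕ}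
  {f : Fin N → T N → UnitAddCircle} {ψ : Y → T N}

/-- the isomorphism commutes with all powers -/
theorem eqv_iterate (hS : MeasurePreserving S ν ν) (h : ∀ᵐ y ∂ν, ψ (S y) = SS f (ψ y)) (m : ℕ) :
    ∀ᵐ y ∂ν, ψ (S^[m] y) = (SS f)^[m] (ψ y) := by
  induction m with
  | zero => exact Eventually.of_forall fun y => rfl
  | succ m ih =>
    have h1 : ∀ᵐ y ∂ν, ψ (S^[m] (S y)) = (SS f)^[m] (ψ (S y)) :=
      hS.quasiMeasurePreserving.ae ih
    filter_upwards [h, h1] with y h2 h3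
    rw [Function.iterate_succ_apply, h3, h2, Function.iterate_succ_apply]

/-- measurable sets are inverse images of measurable sets under the isomorphism -/
theorem exists_preimage [StandardBorelSpace Y] (hI : Ism S ν f ψ) {s : Set Y}
    (hs : MeasurableSet s) : ∃ B : Set (T N), MeasurableSet B ∧ ψ ⁻¹' B =ᵐ[ν] s := by
  obtain ⟨A, hA, hA0, hinj⟩ := hI.inj
  refine ⟨ψ '' (s ∩ A), (hs.inter hA).image_of_measurable_injOn hI.mp.measurable
    (hinj.mono Set.inter_subset_right), ?_⟩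
  refine eventuallyEq_set.2 ?_
  have h1 : ∀ᵐ y ∂ν, y ∈ A := by
    rw [ae_iff]
    exact hA0
  filter_upwards [h1] with y hy
  constructor
  · rintro ⟨z, ⟨hz, hzA⟩, hzy⟩
    rw [← hinj hzA hy hzy]
    exact hz
  · intro hys
    exact ⟨y, ⟨hys, hy⟩, rfl⟩

/-- ergodicity of a power is transported to the model -/
theorem ergodic_model [StandardBorelSpace Y] (hS : Sys ν S S') (hI : Ism S ν f ψ) (m : ℕ)
    (hE : Ergodic (SS f)^[m] (mm N)) : Ergodic S^[m] ν := by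
  refine ⟨(hS.iterate m).mp, ⟨fun s hs hfs => ?_⟩⟩
  obtain ⟨B, hB, hBs⟩ := exists_preimage hI hs
  have hq := hI.mp.quasiMeasurePreserving
  have h1 : ψ ⁻¹' ((SS f)^[m] ⁻¹' B) =ᵐ[ν] ψ ⁻¹' B := by
    have h2 : ∀ᵐ y ∂ν, (S^[m] y ∈ ψ ⁻¹' B ↔ S^[m] y ∈ s) :=
      (hS.iterate m).mp.quasiMeasurePreserving.ae (eventuallyEq_set.1 hBs)
    refine eventuallyEq_set.2 ?_
    filter_upwards [eqv_iterate hS.mp hI.eqv m, h2, eventuallyEq_set.1 hBs] with y e1 e2 e3
    rw [e3]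
    have e4 : S^[m] y ∈ s ↔ y ∈ s := by
      have : y ∈ S^[m] ⁻¹' s ↔ y ∈ s := by rw [hfs]
      exact this
    rw [← e4, ← e2]
    simp only [Set.mem_preimage]
    rw [e1]
  have h3 : (SS f)^[m] ⁻¹' B =ᵐ[mm N] B := by
    have h4 : MeasurableSet {x | ¬ (x ∈ (SS f)^[m] ⁻¹' B ↔ x ∈ B)} := by
      have hm := hE.measurable hB
      have : {x | ¬ (x ∈ (SS f)^[m] ⁻¹' B ↔ x ∈ B)} =
          ((SS f)^[m] ⁻¹' B \ B) ∪ (B \ (SS f)^[m] ⁻¹' B) := by
        ext x
        simp only [Set.mem_ofPred_eq, Set.mem_union, Set.mem_sdiff]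
        tauto
      rw [this]
      exact (hm.diff hB).union (hB.diff hm)
    refine eventuallyEq_set.2 ?_
    rw [ae_iff, ← hI.mp.measure_preimage h4.nullMeasurableSet]
    have h5 := eventuallyEq_set.1 h1
    rw [ae_iff] at h5
    exact h5
  rw [eventuallyConst_set']
  rcases hE.quasiErgodic.ae_empty_or_univ₀ hB.nullMeasurableSet h3 with h5 | h5
  · left
    have h6 : ψ ⁻¹' B =ᵐ[ν] (∅ : Set Y) := hq.preimage_ae_eq h5
    exact hBs.symm.trans h6
  · right
    have h6 : ψ ⁻¹' B =ᵐ[ν] (Set.univ : Set Y) := hq.preimage_ae_eq h5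
    exact hBs.symm.trans h6

theorem st_MST (hV : ST_INV) (hT : Pool.Agent.Helper40.TWM.ST_MST) : ST_MST := by
  intro Y _ _ ν _ S S' hS hM
  obtain ⟨N, lev, f, ψ, ht, hr, hne, hI⟩ := hM
  obtain ⟨f', hti⟩ := hV N lev f ht
  have h1 := hT N lev f f' hti hr hne
  exact ⟨fun m => hS.iterate m, fun m hm => ergodic_model hS hI m (h1.erg m hm)⟩

end Pool.Agent.Helper46.GY
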